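import Pool.Agent.H51.ERA.Stmts
import Pool.Agent.H51.ERA.Base

/-!
MP_e0047e_lc, board `era`, module LEMA: at most one S-segment per symbol (helper53).
-/

set_option autoImplicit false

namespace Pool.Agent.H53.ERA

open Pool.Agent.H51.ERA

theorem LEMA_thm (hSW : SWStmt) (hKEY : KEYStmt) (hUNQ : UNQStmt) : LEMAStmt := by
  intro N Q L rho sys hL s t b q K hcut hyl i i' p p' j j' A y y' hn hn' hS hS' hj hj'
  by_contra hne
  obtain ⟨σ₀, σ₁, σ, hr, hr'⟩ := hSW N Q L rho sys hL q K j j' A y y' hcut hne hj hj'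
  have hy := ent_eq K hj
  have hy' := ent_eq K hj'
  rw [hyl] at hy hy'
  obtain ⟨h1, h2, h3⟩ := hS
  obtain ⟨h1', h2', h3'⟩ := hS'
  obtain ⟨a, r, har, ha1, ha2, ha3⟩ := hKEY s t b i p _ _ hn h1 h2 h3
  obtain ⟨a', r', har', ha1', ha2', ha3'⟩ := hKEY s t b i' p' _ _ hn' h1' h2' h3'
  have k1 : key s t σ = code s t (a, r) := ha3 σ₀ σ (by rw [← hy]; exact hr)
  have k2 : key s t σ = code s t (a', r') := ha3' σ₁ σ (by rw [← hy']; exact hr')
  obtain ⟨e1, e2⟩ := hUNQ s t a a' r r' har har' (k1.symm.trans k2)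
  subst e1
  subst e2
  have hg : gg s t = lam s + t + ll s t := rfl
  have hl : 0 < ll s t := by unfold ll; omega
  rcases Nat.lt_or_gt_of_ne hne with hlt | hgt
  · have := ps_mono K (show j + 1 ≤ j' by omega)
    omega
  · have := ps_mono K (show j' + 1 ≤ j by omega)
    omega

end Pool.Agent.H53.ERA
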